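import Pool.Agent.H505R3.SLM.Stmts2
import Pool.Agent.H546R2.SL.A2b

set_option autoImplicit false

open MvPolynomial

namespace Pool.Agent.H364R3.SLM

open Pool.Agent.H505R3.SLM
open Pool.Agent.H546R2.SL
open Pool.Agent.H632R2.Border

section

variable (K : Type*) [Field K] (ι σ : Type*)

/-- the constants of `K` in the local ring -/
noncomputable def rhoO : K →+* O0 (Om K σ) := (ψ0 (Om K σ)).comp (algebraMap K (Om K σ))

/-- the constants of `K` in the rational function field -/
noncomputable def rho : K →+* RatFunc (Om K σ) := (O0 (Om K σ)).subtype.comp (rhoO K σ)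

lemma X_mem : (RatFunc.X : RatFunc (Om K σ)) ∈ O0 (Om K σ) := by
  rw [mem_O0, ← RatFunc.algebraMap_X, RatFunc.denom_algebraMap]
  simp

/-- the uniformizer -/
noncomputable def eps : O0 (Om K σ) := ⟨RatFunc.X, X_mem K σ⟩

lemma phi_eps : φ0 (Om K σ) (eps K σ) = 0 := by
  have h : algebraMap (Polynomial (Om K σ)) (RatFunc (Om K σ)) Polynomial.X ∈ O0 (Om K σ) := by
    rw [RatFunc.algebraMap_X]; exact X_mem K σ
  have h1 := φ0_poly (Om K σ) Polynomial.X h
  have h2 : (⟨_, h⟩ : O0 (Om K σ)) = eps K σ := by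
    apply Subtype.ext
    exact RatFunc.algebraMap_X
  rw [h2] at h1
  rw [h1, Polynomial.eval_X]

variable {σ}

/-- the variables `v` as elements of the local ring -/
noncomputable def vv (u : σ) : O0 (Om K σ) :=
  ψ0 (Om K σ) (algebraMap (MvPolynomial σ K) (Om K σ) (X u))

variable (σ)

noncomputable def theta0 : MvPolynomial (ι ⊕ σ) K →+* MvPolynomial ι (O0 (Om K σ)) :=
  eval₂Hom ((C : O0 (Om K σ) →+* MvPolynomial ι (O0 (Om K σ))).comp (rhoO K σ))
    (Sum.elim X (fun u => C (vv K u)))

noncomputable def theta : Polynomial (MvPolynomial (ι ⊕ σ) K) →+* MvPolynomial ι (O0 (Om K σ)) :=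
  Polynomial.eval₂RingHom (theta0 K ι σ) (C (eps K σ))

lemma map_theta0 (p : MvPolynomial (ι ⊕ σ) K) :
    map (φ0 (Om K σ)) (theta0 K ι σ p) = spz K ι σ p := by
  have h : (map (φ0 (Om K σ))).comp (theta0 K ι σ) = spz K ι σ := by
    apply MvPolynomial.ringHom_ext
    · intro a
      simp only [RingHom.comp_apply, theta0, spz, eval₂Hom_C, map_C, rhoO, φψ]
    · rintro (i | u)
      · simp only [RingHom.comp_apply, theta0, spz, eval₂Hom_X', Sum.elim_inl, map_X]
      · simp only [RingHom.comp_apply, theta0, spz, eval₂Hom_X', Sum.elim_inr, map_C, vv, φψ]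
  exact congrArg (fun f => f p) h

lemma map_theta (Q : Polynomial (MvPolynomial (ι ⊕ σ) K)) :
    map (φ0 (Om K σ)) (theta K ι σ Q) = spz K ι σ (Q.coeff 0) := by
  have h : (map (φ0 (Om K σ))).comp (theta K ι σ) =
      (spz K ι σ).comp (Polynomial.constantCoeff) := by
    apply Polynomial.ringHom_ext
    · intro p
      simp only [RingHom.comp_apply, theta, Polynomial.coe_eval₂RingHom, Polynomial.eval₂_C,
        map_theta0, Polynomial.constantCoeff_apply, Polynomial.coeff_C_zero]
    · simp only [RingHom.comp_apply, theta, Polynomial.coe_eval₂RingHom, Polynomial.eval₂_X,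
        Polynomial.constantCoeff_apply, Polynomial.coeff_X_zero, map_zero, map_C, phi_eps]
  have h2 := congrArg (fun f => f Q) h
  simpa [Polynomial.constantCoeff_apply] using h2

variable {ι σ}

lemma theta0_rename (p : MvPolynomial ι K) :
    theta0 K ι σ (rename Sum.inl p) = map (rhoO K σ) p := by
  have h : (theta0 K ι σ).comp (rename (Sum.inl : ι → ι ⊕ σ) : MvPolynomial ι K →ₐ[K] _).toRingHom =
      map (rhoO K σ) := by
    apply MvPolynomial.ringHom_ext
    · intro a
      simp [theta0]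
    · intro i
      simp [theta0]
  exact congrArg (fun f => f p) h

/-- the specialization over the rational function field -/
noncomputable def S2 (S : σ → MvPolynomial ι K) (u : σ) : MvPolynomial ι (RatFunc (Om K σ)) :=
  map (rho K σ) (S u) + C ((eps K σ : RatFunc (Om K σ)) * (vv K u : RatFunc (Om K σ)))

lemma map_sub_theta (S : σ → MvPolynomial ι K) (f : MvPolynomial σ K) :
    map (O0 (Om K σ)).subtype (theta K ι σ (Phi S f)) = aeval (S2 K S) (map (rho K σ) f) := by
  have h : ((map (O0 (Om K σ)).subtype).comp (theta K ι σ)).comp (Phi S).toRingHom =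
      ((aeval (S2 K S) : MvPolynomial σ (RatFunc (Om K σ)) →ₐ[RatFunc (Om K σ)]
        MvPolynomial ι (RatFunc (Om K σ))).toRingHom).comp (map (rho K σ)) := by
    apply MvPolynomial.ringHom_ext
    · intro a
      have h1 : Phi S (C a) = Polynomial.C (C a) := by
        rw [← algebraMap_eq, AlgHom.commutes]
        rfl
      simp only [RingHom.comp_apply, AlgHom.toRingHom_eq_coe, RingHom.coe_coe, h1, theta,
        Polynomial.coe_eval₂RingHom, Polynomial.eval₂_C, theta0, eval₂Hom_C, map_C, aeval_C,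
        algebraMap_eq]
      rfl
    · intro u
      have h1 : Phi S (X u) = Polynomial.C (rename Sum.inl (S u)) +
          Polynomial.X * Polynomial.C (X (Sum.inr u)) := by
        rw [Phi, aeval_X]
      have h2 : theta0 K ι σ (X (Sum.inr u)) = C (vv K u) := by
        rw [theta0, eval₂Hom_X']; rfl
      simp only [RingHom.comp_apply, AlgHom.toRingHom_eq_coe, RingHom.coe_coe, h1, theta,
        Polynomial.coe_eval₂RingHom, Polynomial.eval₂_C, Polynomial.eval₂_add,
        Polynomial.eval₂_mul, Polynomial.eval₂_X, theta0_rename, h2, map_add, map_mul, map_C,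
        map_X, aeval_X, map_map, S2]
      rfl
  exact congrArg (fun g => g f) h

lemma spec_mem (S : σ → MvPolynomial ι K) (W : Submodule (RatFunc (Om K σ))
    (MvPolynomial ι (RatFunc (Om K σ)))) (f : MvPolynomial σ K) (o : ℕ)
    (Q : Polynomial (MvPolynomial (ι ⊕ σ) K)) (hQ : Phi S f = Polynomial.X ^ o * Q)
    (hW : aeval (S2 K S) (map (rho K σ) f) ∈ W) :
    spz K ι σ (Q.coeff 0) ∈ spec (O0 (Om K σ)) (φ0 (Om K σ)) (ψ0 (Om K σ)) (φψ (Om K σ)) W := by
  refine ⟨theta K ι σ Q, ?_, map_theta K ι σ Q⟩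
  rw [← map_sub_theta, hQ, map_mul, map_mul, map_pow, map_pow] at hW
  have h1 : map (O0 (Om K σ)).subtype (theta K ι σ Polynomial.X) =
      C (RatFunc.X : RatFunc (Om K σ)) := by
    rw [theta, Polynomial.coe_eval₂RingHom, Polynomial.eval₂_X, map_C]
    rfl
  rw [h1, ← map_pow] at hW
  have h2 := W.smul_mem ((RatFunc.X : RatFunc (Om K σ)) ^ o)⁻¹ hW
  rw [smul_eq_C_mul, ← mul_assoc, ← map_mul, inv_mul_cancel₀ (pow_ne_zero _ RatFunc.X_ne_zero),
    map_one, one_mul] at h2
  exact h2

end

theorem taskG : TaskG := by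
  intro K _ ι σ _ _ S hS s M g hg h hh o o' Q Q' hQ hQ'
  classical
  have hg' := hg.map (rho K σ)
  have hS2 : ∀ v, (aeval (S2 K S) : MvPolynomial σ (RatFunc (Om K σ)) →ₐ[RatFunc (Om K σ)]
      MvPolynomial ι (RatFunc (Om K σ))) (X v) ∈
      restrictTotalDegree ι (RatFunc (Om K σ)) 1 := by
    intro v
    rw [aeval_X, S2]
    apply Submodule.add_mem
    · rw [mem_restrictTotalDegree]
      exact (totalDegree_map_le _ _).trans ((mem_restrictTotalDegree _ _ _).mp (hS v))
    · rw [mem_restrictTotalDegree, totalDegree_C]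
      exact Nat.zero_le _
  obtain ⟨i, hi, hhi⟩ := hh
  obtain ⟨W, h0, hW, hgW⟩ := forward' (good_W₀ (K := RatFunc (Om K σ)) (ι := ι))
    (aeval (S2 K S)) hS2 s M _ hg' s le_rfl
  obtain ⟨W', hWW', hW', lam, _, hexp⟩ := backward' (aeval (S2 K S)) s M _ hg' _ W hW hgW
    (map (rho K σ) h) ⟨i, hi, by rw [hhi]⟩ s le_rfl
  have hd : ∀ v, aeval (S2 K S) (map (rho K σ) (pderiv v h)) ∈ W' := by
    intro v
    obtain ⟨μ, hμ, he⟩ := hexp v
    rw [Nat.sub_self, Finset.range_zero, Finset.sum_empty, zero_add] at he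
    rw [← pderiv_map, he]
    exact hμ
  refine ⟨spec (O0 (Om K σ)) (φ0 (Om K σ)) (ψ0 (Om K σ)) (φψ (Om K σ)) W',
    restrict_le_spec (h0.trans hWW'), spec_good (hW'.mono ?_), ?_, fun u => ?_⟩
  · have h1 := lowM_le M s
    have h2 := highM_le M (s - s) s
    omega
  · refine spec_mem K S W' h o Q hQ (hWW' ?_)
    rw [hhi]
    exact hgW i hi
  · exact spec_mem K S W' (pderiv u h) o' (Q' u) (hQ' u) (hd u)

end Pool.Agent.H364R3.SLM
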